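import Mathlib

set_option autoImplicit false

/-!
# Hole probability of the Gaussian entire function: the capacity formula fails for thin rectangles

Let `rect δ = [-1,1] × [-δ,δ]`.  Its capacity is at least `1/2` (the capacity of `[-1,1]`), for
every `δ`.  On `r • rect δ` the Gaussian entire function `f` has no zero as soon as it is close
to the function `exp (z^2/2)`, whose modulus is within a factor `exp (δ^2 r^2)` of
`exp (|z|^2/2)` there; the coefficients of `exp (z^2/2)` in the basis `z^m/√(m!)` are at most `1`,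
so this costs only `exp (-(62 δ^2 r^4 + 2915 r^3))` in probability.  For `δ ≤ 1/25` this is much
larger than `exp (-(e^2/4) c^4 r^4)`.
-/

namespace Pool.Agent.Results.MP_629fb1_pr.ThinRectangle

open Filter Topology MeasureTheory ProbabilityTheory

/-- The product of the distances `|z i - z j|` over the pairs `i < j`. -/
noncomputable def pairProd {n : ℕ} (z : Fin n → ℂ) : ℝ :=
  ∏ i, ∏ j ∈ Finset.Ioi i, ‖z i - z j‖

/-- The `n`-th diameter of `K`: the supremum of `∏_{i<j} |z i - z j| ^ (2/(n(n-1)))` over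
`z 0, …, z (n-1)` in `K`. -/
noncomputable def nthDiam (K : Set ℂ) (n : ℕ) : ℝ :=
  (sSup (pairProd '' {z : Fin n → ℂ | ∀ i, z i ∈ K})) ^ (2 / ((n : ℝ) * (n - 1)))

/-- `K` has capacity (transfinite diameter) `c`: the `n`-th diameters of `K` tend to `c`. -/
def HasCapacity (K : Set ℂ) (c : ℝ) : Prop := Tendsto (nthDiam K) atTop (𝓝 c)

/-- an auxiliary function: `|z i - z j|` if `i < j`, and `1` otherwise -/
noncomputable def hfun {n : ℕ} (z : Fin n → ℂ) (i j : Fin n) : ℝ :=
  if i < j then ‖z i - z j‖ else 1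

lemma pairProd_eq {n : ℕ} (z : Fin n → ℂ) :
    pairProd z = ∏ i, ∏ j, hfun z i j := by
  unfold pairProd hfun
  refine Finset.prod_congr rfl fun i _ => ?_
  rw [← Finset.prod_filter]
  congr 1
  ext j; simp

lemma hfun_nonneg {n : ℕ} (z : Fin n → ℂ) (i j : Fin n) : 0 ≤ hfun z i j := by
  unfold hfun; split_ifs <;> positivity

lemma pairProd_nonneg {n : ℕ} (z : Fin n → ℂ) : 0 ≤ pairProd z := by
  unfold pairProd; positivity

lemma hfun_succAbove {n : ℕ} (z : Fin (n+1) → ℂ) (k : Fin (n+1)) (i j : Fin n) :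
    hfun (fun i => z (k.succAbove i)) i j = hfun z (k.succAbove i) (k.succAbove j) := by
  unfold hfun
  simp [Fin.succAbove_lt_succAbove_iff]

lemma pairProd_split {n : ℕ} (z : Fin (n+1) → ℂ) (k : Fin (n+1)) :
    pairProd z = (∏ b, hfun z k b) * (∏ a, hfun z a k) * pairProd (fun i => z (k.succAbove i)) := by
  rw [pairProd_eq, pairProd_eq]
  rw [Fin.prod_univ_succAbove (fun a => ∏ b, hfun z a b) k]
  rw [mul_assoc]
  congr 1
  rw [Fin.prod_univ_succAbove (fun a => hfun z a k) k]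
  have : hfun z k k = 1 := by simp [hfun]
  rw [this, one_mul, ← Finset.prod_mul_distrib]
  refine Finset.prod_congr rfl fun i _ => ?_
  rw [Fin.prod_univ_succAbove (fun b => hfun z (k.succAbove i) b) k]
  simp only [hfun_succAbove]

lemma pairProd_pow {n : ℕ} (z : Fin (n+1) → ℂ) :
    pairProd z ^ (n+1) = pairProd z ^ 2 * ∏ k, pairProd (fun i => z ((k : Fin (n+1)).succAbove i)) := by
  have h1 : ∏ _k : Fin (n+1), pairProd z = pairProd z ^ (n+1) := by simp
  rw [← h1]
  rw [Finset.prod_congr rfl (fun k _ => pairProd_split z k)]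
  rw [Finset.prod_mul_distrib, Finset.prod_mul_distrib]
  congr 1
  rw [sq, pairProd_eq]
  congr 1
  rw [Finset.prod_comm]

lemma pairProd_cont {n : ℕ} : Continuous (pairProd : (Fin n → ℂ) → ℝ) := by
  unfold pairProd
  fun_prop

lemma bdd {K : Set ℂ} (hK : IsCompact K) (n : ℕ) :
    BddAbove (pairProd '' {z : Fin n → ℂ | ∀ i, z i ∈ K}) := by
  have : {z : Fin n → ℂ | ∀ i, z i ∈ K} = Set.univ.pi (fun _ => K) := by ext; simp
  rw [this]
  exact (isCompact_univ_pi fun _ => hK).bddAbove_image pairProd_cont.continuousOn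

lemma le_sup {K : Set ℂ} (hK : IsCompact K) {n : ℕ} {z : Fin n → ℂ} (hz : ∀ i, z i ∈ K) :
    pairProd z ≤ sSup (pairProd '' {z : Fin n → ℂ | ∀ i, z i ∈ K}) :=
  le_csSup (bdd hK n) ⟨z, hz, rfl⟩

lemma sup_nonneg (K : Set ℂ) (n : ℕ) :
    0 ≤ sSup (pairProd '' {z : Fin n → ℂ | ∀ i, z i ∈ K}) := by
  apply Real.sSup_nonneg
  rintro _ ⟨z, _, rfl⟩
  exact pairProd_nonneg z

lemma nthDiam_succ_le {K : Set ℂ} (hK : IsCompact K) (hne : K.Nonempty) {n : ℕ} (hn : 2 ≤ n) :
    nthDiam K (n+1) ≤ nthDiam K n := by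
  set S := sSup (pairProd '' {z : Fin n → ℂ | ∀ i, z i ∈ K}) with hS
  have hS0 : 0 ≤ S := sup_nonneg K n
  have hn' : (2 : ℝ) ≤ n := by exact_mod_cast hn
  have key : ∀ z : Fin (n+1) → ℂ, (∀ i, z i ∈ K) →
      pairProd z ≤ S ^ (((n:ℝ)+1)/(n-1)) := by
    intro z hz
    have h0 := pairProd_nonneg z
    rcases h0.eq_or_lt with h | h
    · rw [← h]; positivity
    · have h2 : ∏ k, pairProd (fun i => z ((k : Fin (n+1)).succAbove i)) ≤ S ^ (n+1) := by
        calc ∏ k, pairProd (fun i => z ((k : Fin (n+1)).succAbove i)) ≤ ∏ _k : Fin (n+1), S := by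
              apply Finset.prod_le_prod
              · intro i _; exact pairProd_nonneg _
              · intro k _
                exact le_sup hK (fun i => hz _)
          _ = S ^ (n+1) := by simp
      have h3 := pairProd_pow z
      obtain ⟨m, rfl⟩ : ∃ m, n = m + 1 := ⟨n - 1, by omega⟩
      have h4 : pairProd z ^ m ≤ S ^ (m+1+1) := by
        have : pairProd z ^ 2 * pairProd z ^ m ≤ pairProd z ^ 2 * S ^ (m+1+1) := by
          calc pairProd z ^ 2 * pairProd z ^ m = pairProd z ^ (m+1+1) := by ring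
            _ = _ := h3
            _ ≤ _ := by gcongr
        exact le_of_mul_le_mul_left this (by positivity)
      have hm : (0:ℝ) < m := by
        push_cast at hn'; linarith
      have h5 : pairProd z = (pairProd z ^ m) ^ ((1:ℝ)/m) := by
        rw [← Real.rpow_natCast, ← Real.rpow_mul h0]
        field_simp
        simp
      have h6 : S ^ ((((m+1:ℕ):ℝ)+1)/(((m+1:ℕ):ℝ)-1)) = (S ^ (m+1+1)) ^ ((1:ℝ)/m) := by
        rw [← Real.rpow_natCast, ← Real.rpow_mul hS0]
        congr 1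
        push_cast
        have : (m:ℝ) + 1 - 1 = m := by ring
        rw [this]; field_simp
      rw [h6, h5]
      apply Real.rpow_le_rpow (by positivity) h4 (by positivity)
  have h7 : sSup (pairProd '' {z : Fin (n+1) → ℂ | ∀ i, z i ∈ K}) ≤ S ^ (((n:ℝ)+1)/(n-1)) := by
    apply csSup_le
    · obtain ⟨x, hx⟩ := hne
      exact ⟨_, fun _ => x, fun _ => hx, rfl⟩
    · rintro _ ⟨z, hz, rfl⟩
      exact key z hz
  unfold nthDiam
  rw [← hS]
  have h8 : S ^ (2 / ((n:ℝ) * (n-1))) = (S ^ (((n:ℝ)+1)/(n-1))) ^ (2 / (((n+1:ℕ):ℝ) * (((n+1:ℕ):ℝ)-1))) := by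
    rw [← Real.rpow_mul hS0]
    congr 1
    push_cast
    have h1 : (n:ℝ) + 1 - 1 = n := by ring
    rw [h1]
    have h2 : (n:ℝ) - 1 ≠ 0 := by linarith
    field_simp
  rw [h8]
  apply Real.rpow_le_rpow (sup_nonneg K (n+1)) h7
  push_cast
  have h1 : (n:ℝ) + 1 - 1 = n := by ring
  rw [h1]; positivity

lemma nthDiam_nonneg (K : Set ℂ) (n : ℕ) : 0 ≤ nthDiam K n := 
  Real.rpow_nonneg (sup_nonneg K n) _

/-- The limit defining the capacity exists for nonempty compact sets. -/
lemma exists_capacity {K : Set ℂ} (hK : IsCompact K) (hne : K.Nonempty) :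
    ∃ c, HasCapacity K c := by
  have hanti : Antitone (fun n => nthDiam K (n+2)) :=
    antitone_nat_of_succ_le fun n => nthDiam_succ_le hK hne (by omega)
  have hbdd : BddBelow (Set.range (fun n => nthDiam K (n+2))) :=
    ⟨0, by rintro _ ⟨n, rfl⟩; exact nthDiam_nonneg K _⟩
  refine ⟨⨅ n, nthDiam K (n+2), ?_⟩
  unfold HasCapacity
  rw [← tendsto_add_atTop_iff_nat 2]
  exact tendsto_atTop_ciInf hanti hbdd

/-- real points in `[-1,1]`-/
lemma leja (n : ℕ) (x : Fin n → ℝ) : ∃ y ∈ Set.Icc (-1:ℝ) 1, (1/2:ℝ)^n ≤ ∏ i, |y - x i| := by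
  rcases Nat.eq_zero_or_pos n with rfl | hn
  · exact ⟨0, by simp, by simp⟩
  by_contra! hcon
  set P : Polynomial ℝ := Polynomial.C ((2:ℝ)^n) * ∏ i, (Polynomial.X - Polynomial.C (x i)) with hP
  have hmonic : (∏ i, (Polynomial.X - Polynomial.C (x i))).Monic :=
    Polynomial.monic_prod_X_sub_C x Finset.univ
  have hdeg : (∏ i, (Polynomial.X - Polynomial.C (x i))).natDegree = n := by
    rw [Polynomial.natDegree_finsetProd_X_sub_C_eq_card]; simp
  have hcoeff : P.coeff n = 2^n := by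
    rw [hP, Polynomial.coeff_C_mul]
    have : (∏ i, (Polynomial.X - Polynomial.C (x i))).coeff n = 1 := by
      have := hmonic.coeff_natDegree
      rwa [hdeg] at this
    rw [this, mul_one]
  have hPdeg : P.degree ≤ n := by
    rw [hP, Polynomial.degree_C_mul (by positivity), ← Polynomial.natDegree_le_iff_degree_le, hdeg]
  have hPb : ∀ y ∈ Set.Icc (-1:ℝ) 1, |P.eval y| ≤ 1 := by
    intro y hy
    have h1 := hcon y hy
    rw [hP]
    simp only [Polynomial.eval_mul, Polynomial.eval_C, Polynomial.eval_prod, Polynomial.eval_sub, Polynomial.eval_X,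
      abs_mul, Finset.abs_prod]
    rw [abs_of_pos (by positivity)]
    calc (2:ℝ)^n * ∏ i, |y - x i| ≤ 2^n * (1/2)^n := by gcongr
      _ = 1 := by rw [← mul_pow]; norm_num
  have := Polynomial.Chebyshev.coeff_le_of_forall_abs_le_one hPdeg hPb
  rw [hcoeff] at this
  have h2 : (2:ℝ)^(n-1) < 2^n := pow_lt_pow_right₀ (by norm_num) (by omega)
  linarith

lemma leja_seq (n : ℕ) : ∃ x : Fin n → ℝ, (∀ i, x i ∈ Set.Icc (-1:ℝ) 1) ∧
    (1/2:ℝ)^(n*(n-1)/2) ≤ pairProd (fun i => (x i : ℂ)) := by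
  induction n with
  | zero => exact ⟨fun i => 0, by simp, by simp [pairProd]⟩
  | succ n ih =>
    obtain ⟨x, hx, hx2⟩ := ih
    obtain ⟨y, hy, hy2⟩ := leja n x
    refine ⟨Fin.cons y x, ?_, ?_⟩
    · intro i
      refine Fin.cases ?_ (fun i => ?_) i
      · simpa using hy
      · simpa using hx i
    · have h1 : pairProd (fun i => ((Fin.cons y x : Fin (n+1) → ℝ) i : ℂ)) = 
          (∏ i, |y - x i|) * pairProd (fun i => (x i : ℂ)) := by
        unfold pairProd
        rw [Fin.prod_univ_succ]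
        congr 1
        · rw [Fin.prod_Ioi_zero]
          refine Finset.prod_congr rfl fun i _ => ?_
          simp only [Fin.cons_zero, Fin.cons_succ]
          rw [← Complex.ofReal_sub, Complex.norm_real, Real.norm_eq_abs]
        · refine Finset.prod_congr rfl fun i _ => ?_
          rw [Fin.prod_Ioi_succ]
          simp only [Fin.cons_succ]
      rw [h1]
      have h2 : (n+1)*(n+1-1)/2 = n + n*(n-1)/2 := by
        rcases n with _ | m
        · simp
        · simp only [Nat.add_sub_cancel]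
          rw [show (m+1+1)*(m+1) = (m+1)*m + (m+1)*2 by ring]
          rw [Nat.add_mul_div_right _ _ (by norm_num)]
          ring
      rw [h2, pow_add]
      gcongr

lemma half_le_nthDiam {K : Set ℂ} (hK : IsCompact K) (hseg : ∀ x ∈ Set.Icc (-1:ℝ) 1, (x:ℂ) ∈ K)
    {n : ℕ} (hn : 2 ≤ n) : 1/2 ≤ nthDiam K n := by
  obtain ⟨x, hx, hx2⟩ := leja_seq n
  have h1 := le_sup hK (z := fun i => (x i : ℂ)) (fun i => hseg _ (hx i))
  have h2 := hx2.trans h1
  unfold nthDiam
  have hn' : (2 : ℝ) ≤ n := by exact_mod_cast hn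
  have hn1 : (0:ℝ) < (n:ℝ) - 1 := by linarith
  have hn0 : (0:ℝ) < (n:ℝ) := by linarith
  have h3 : ((1/2:ℝ)^(n*(n-1)/2)) ^ (2 / ((n : ℝ) * (n - 1))) = 1/2 := by
    rw [← Real.rpow_natCast, ← Real.rpow_mul (by norm_num)]
    have h4 : ((n*(n-1)/2 : ℕ) : ℝ) = (n:ℝ)*(n-1)/2 := by
      have h5 : 2 ∣ n*(n-1) := (Nat.even_mul_pred_self n).two_dvd
      rw [Nat.cast_div h5 (by norm_num)]
      push_cast [Nat.cast_sub (show 1 ≤ n by omega)]
      ring
    rw [h4]
    have h6 : (n:ℝ)*(n-1)/2 * (2 / ((n : ℝ) * (n - 1))) = 1 := by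
      field_simp
    rw [h6, Real.rpow_one]
  rw [← h3]
  apply Real.rpow_le_rpow (by positivity) h2
  positivity

lemma half_le_capacity {K : Set ℂ} (hK : IsCompact K) (hseg : ∀ x ∈ Set.Icc (-1:ℝ) 1, (x:ℂ) ∈ K)
    {c : ℝ} (hc : HasCapacity K c) : 1/2 ≤ c := by
  apply ge_of_tendsto hc
  filter_upwards [eventually_ge_atTop 2] with n hn
  exact half_le_nthDiam hK hseg hn

/-- The entire function `∑ x_n z^n / √(n!)`. -/
noncomputable def gef (x : ℕ → ℂ) (z : ℂ) : ℂ := ∑' n, x n * (z ^ n / (Real.sqrt (n.factorial : ℝ) : ℂ))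

/-- coefficients of `exp (z^2/2)` in the basis `z^m/√(m!)` -/
noncomputable def acoef (m : ℕ) : ℂ :=
  if Even m then ((Real.sqrt (m.factorial : ℝ) / (2 ^ (m/2) * ((m/2).factorial : ℝ)) : ℝ) : ℂ) else 0

lemma fact_le (k : ℕ) : ((2*k).factorial : ℝ) ≤ (2 ^ k * (k.factorial : ℝ))^2 := by
  induction k with
  | zero => simp
  | succ k ih =>
    have h1 : ((2*(k+1)).factorial : ℝ) = (2*k+2) * (2*k+1) * ((2*k).factorial : ℝ) := by
      rw [show 2*(k+1) = 2*k+1+1 by ring, Nat.factorial_succ, Nat.factorial_succ]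
      push_cast; ring
    have h2 : (((k+1).factorial : ℕ) : ℝ) = (k+1) * (k.factorial : ℝ) := by
      rw [Nat.factorial_succ]; push_cast; ring
    rw [h1, h2]
    have h3 : (2 ^ (k+1) * ((k+1) * (k.factorial : ℝ)))^2 = (2*k+2)^2 * (2 ^ k * (k.factorial : ℝ))^2 := by
      ring
    rw [h3]
    have h4 : ((2*k+2) * (2*k+1) : ℝ) ≤ (2*k+2)^2 := by
      have : (0:ℝ) ≤ k := by positivity
      nlinarith
    gcongr

lemma norm_acoef_le (m : ℕ) : ‖acoef m‖ ≤ 1 := by
  unfold acoef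
  split_ifs with h
  · obtain ⟨k, rfl⟩ := h.two_dvd
    rw [Nat.mul_div_cancel_left _ (by norm_num), Complex.norm_real, Real.norm_eq_abs,
      abs_of_nonneg (by positivity)]
    rw [div_le_one (by positivity)]
    apply Real.sqrt_le_iff.2
    exact ⟨by positivity, fact_le k⟩
  · simp

lemma acoef_odd (k : ℕ) : acoef (2*k+1) = 0 := by
  unfold acoef
  rw [if_neg (by simp)]

lemma aux_alg (z s f : ℂ) (k : ℕ) (hs : s ≠ 0) (hf : f ≠ 0) :
    s / (2 ^ k * f) * ((z^2)^k / s) = (z^2/2)^k / f := by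
  rw [div_pow]
  field_simp

lemma acoef_even_term (z : ℂ) (k : ℕ) :
    acoef (2*k) * (z ^ (2*k) / (Real.sqrt ((2*k).factorial : ℝ) : ℂ)) = (z^2/2)^k / (k.factorial : ℂ) := by
  unfold acoef
  rw [if_pos (even_two_mul k), Nat.mul_div_cancel_left _ (by norm_num)]
  have h3 : (Real.sqrt ((2*k).factorial : ℝ) : ℂ) ≠ 0 := by
    rw [Complex.ofReal_ne_zero]
    positivity
  have h4 : (k.factorial : ℂ) ≠ 0 := by exact_mod_cast Nat.factorial_ne_zero k
  rw [pow_mul z 2 k, Complex.ofReal_div, Complex.ofReal_mul, Complex.ofReal_pow, Complex.ofReal_ofNat,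
    Complex.ofReal_natCast]
  exact aux_alg z _ _ k h3 h4

lemma HasSum.congr_fun' {f g : ℕ → ℂ} {a : ℂ} (h : HasSum f a) (hfg : ∀ n, g n = f n) : HasSum g a := by
  have : g = f := funext hfg
  rw [this]; exact h

lemma hasSum_acoef (z : ℂ) :
    HasSum (fun n => acoef n * (z ^ n / (Real.sqrt (n.factorial : ℝ) : ℂ))) (Complex.exp (z^2/2)) := by
  have h1 : HasSum (fun k : ℕ => (z^2/2)^k / (k.factorial : ℂ)) (Complex.exp (z^2/2)) := by
    have := NormedSpace.expSeries_div_hasSum_exp (𝔸 := ℂ) (z^2/2)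
    rwa [← Complex.exp_eq_exp_ℂ] at this
  have h2 : HasSum (fun k : ℕ => acoef (2*k) * (z ^ (2*k) / (Real.sqrt ((2*k).factorial : ℝ) : ℂ)))
      (Complex.exp (z^2/2)) := by
    refine HasSum.congr_fun' h1 ?_
    intro k
    exact acoef_even_term z k
  have h3 : HasSum (fun k : ℕ => acoef (2*k+1) * (z ^ (2*k+1) / (Real.sqrt ((2*k+1).factorial : ℝ) : ℂ))) 0 := by
    refine HasSum.congr_fun' hasSum_zero ?_
    intro k
    rw [acoef_odd, zero_mul]
  have h4 := HasSum.even_add_odd (f := fun n => acoef n * (z ^ n / (Real.sqrt (n.factorial : ℝ) : ℂ))) h2 h3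
  rwa [add_zero] at h4

lemma norm_term (z : ℂ) (m : ℕ) :
    ‖z ^ m / (Real.sqrt (m.factorial : ℝ) : ℂ)‖ = ‖z‖^m / Real.sqrt (m.factorial : ℝ) := by
  rw [norm_div, norm_pow, Complex.norm_real, Real.norm_eq_abs, abs_of_nonneg (Real.sqrt_nonneg _)]

lemma term_sq (z : ℂ) (m : ℕ) :
    (‖z‖^m / Real.sqrt (m.factorial : ℝ))^2 = (‖z‖^2)^m / (m.factorial : ℝ) := by
  rw [div_pow, Real.sq_sqrt (by positivity)]
  ring

lemma sum_head (z : ℂ) (N : ℕ) :
    ∑ m ∈ Finset.range N, ‖z‖^m / Real.sqrt (m.factorial : ℝ) ≤ Real.sqrt N * Real.exp (‖z‖^2/2) := by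
  have h1 : (∑ m ∈ Finset.range N, ‖z‖^m / Real.sqrt (m.factorial : ℝ))^2 ≤
      (Real.sqrt N * Real.exp (‖z‖^2/2))^2 := by
    calc _ ≤ ((Finset.range N).card : ℝ) * ∑ m ∈ Finset.range N, (‖z‖^m / Real.sqrt (m.factorial : ℝ))^2 :=
          sq_sum_le_card_mul_sum_sq
      _ = N * ∑ m ∈ Finset.range N, (‖z‖^2)^m / (m.factorial : ℝ) := by
          simp only [term_sq, Finset.card_range]
      _ ≤ N * Real.exp (‖z‖^2) := by
          gcongr
          exact Real.sum_le_exp_of_nonneg (by positivity) N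
      _ = _ := by
          rw [mul_pow, Real.sq_sqrt (by positivity), sq (Real.exp _), ← Real.exp_add]
          congr 2; ring
  exact le_of_sq_le_sq h1 (by positivity) 

lemma term_le (z : ℂ) (m : ℕ) :
    ‖z‖^m / Real.sqrt (m.factorial : ℝ) ≤ (1/4)^m * Real.exp (8 * ‖z‖^2) := by
  have h1 : (‖z‖^m / Real.sqrt (m.factorial : ℝ))^2 ≤ ((1/4)^m * Real.exp (8 * ‖z‖^2))^2 := by
    rw [term_sq]
    have h2 := Real.pow_div_factorial_le_exp (16 * ‖z‖^2) (by positivity) m
    have h3 : (16 * ‖z‖^2)^m / (m.factorial : ℝ) = 16^m * ((‖z‖^2)^m / (m.factorial : ℝ)) := by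
      rw [mul_pow]; ring
    rw [h3] at h2
    have h4 : ((1/4:ℝ)^m * Real.exp (8 * ‖z‖^2))^2 = (1/16)^m * Real.exp (16 * ‖z‖^2) := by
      rw [mul_pow, sq (Real.exp _), ← Real.exp_add, ← pow_mul, mul_comm m 2, pow_mul]
      norm_num
      ring
    rw [h4]
    calc (‖z‖^2)^m / (m.factorial : ℝ) = (1/16)^m * (16^m * ((‖z‖^2)^m / (m.factorial : ℝ))) := by
          rw [← mul_assoc, ← mul_pow]; norm_num
      _ ≤ _ := by gcongr
  exact le_of_sq_le_sq h1 (by positivity)

lemma tail_term (z : ℂ) (m : ℕ) :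
    ((m:ℝ)+1) * (‖z‖^m / Real.sqrt (m.factorial : ℝ)) ≤ (1/2)^m * Real.exp (8 * ‖z‖^2) := by
  have h1 : ((m:ℝ)+1) ≤ 2^m := by exact_mod_cast Nat.lt_two_pow_self (n := m)
  calc ((m:ℝ)+1) * (‖z‖^m / Real.sqrt (m.factorial : ℝ)) ≤ 2^m * ((1/4)^m * Real.exp (8 * ‖z‖^2)) := by
        gcongr
        exact term_le z m
    _ = _ := by
        rw [← mul_assoc, ← mul_pow]; norm_num

/-- the deterministic key estimate -/
lemma gef_ne_zero {x : ℕ → ℂ} {N : ℕ} {η : ℝ} (h0 : 0 ≤ η) 
    (h1 : ∀ m < N, ‖x m - acoef m‖ ≤ η) (h2 : ∀ m, N ≤ m → ‖x m‖ ≤ m) {z : ℂ}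
    (h3 : η * (Real.sqrt N * Real.exp (‖z‖^2/2)) ≤ Real.exp ((z^2).re/2) / 4)
    (h4 : 2 * (1/2)^N * Real.exp (8 * ‖z‖^2) ≤ Real.exp ((z^2).re/2) / 4) :
    gef x z ≠ 0 := by
  set b : ℕ → ℂ := fun n => z ^ n / (Real.sqrt (n.factorial : ℝ) : ℂ) with hb
  set d : ℕ → ℂ := fun n => (x n - acoef n) * b n with hd
  have hdb : ∀ m, N ≤ m → ‖d m‖ ≤ (1/2)^m * Real.exp (8 * ‖z‖^2) := by
    intro m hm
    have h5 : ‖x m - acoef m‖ ≤ m + 1 := (norm_sub_le _ _).trans (add_le_add (h2 m hm) (norm_acoef_le m))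
    rw [hd, norm_mul, hb, norm_term]
    exact (mul_le_mul_of_nonneg_right h5 (by positivity)).trans (tail_term z m)
  have hgeom : Summable (fun m : ℕ => (1/2:ℝ)^m * Real.exp (8 * ‖z‖^2)) :=
    (summable_geometric_of_lt_one (by norm_num) (by norm_num)).mul_right _
  have hdsum : Summable (fun n => ‖d n‖) := by
    refine Summable.of_norm_bounded_eventually_nat hgeom ?_
    filter_upwards [eventually_ge_atTop N] with m hm
    rw [norm_norm]
    exact hdb m hm
  have hds : Summable d := hdsum.of_norm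
  have ha := hasSum_acoef z
  have hx : HasSum (fun n => x n * b n) (∑' n, d n + Complex.exp (z^2/2)) := by
    convert hds.hasSum.add ha using 2 with n
    rw [hd]; ring
  have hg : gef x z = ∑' n, d n + Complex.exp (z^2/2) := hx.tsum_eq
  have hn : ‖∑' n, d n‖ ≤ Real.exp ((z^2).re/2) / 4 + Real.exp ((z^2).re/2) / 4 := by
    calc ‖∑' n, d n‖ ≤ ∑' n, ‖d n‖ := norm_tsum_le_tsum_norm hdsum
      _ = ∑ m ∈ Finset.range N, ‖d m‖ + ∑' m, ‖d (m + N)‖ := (hdsum.sum_add_tsum_nat_add N).symm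
      _ ≤ _ := by
        gcongr
        · calc ∑ m ∈ Finset.range N, ‖d m‖ ≤ ∑ m ∈ Finset.range N, η * (‖z‖^m / Real.sqrt (m.factorial : ℝ)) := by
                apply Finset.sum_le_sum
                intro m hm
                rw [hd, norm_mul, hb, norm_term]
                exact mul_le_mul_of_nonneg_right (h1 m (Finset.mem_range.1 hm)) (by positivity)
            _ = η * ∑ m ∈ Finset.range N, ‖z‖^m / Real.sqrt (m.factorial : ℝ) := by rw [Finset.mul_sum]
            _ ≤ η * (Real.sqrt N * Real.exp (‖z‖^2/2)) := by gcongr; exact sum_head z N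
            _ ≤ _ := h3
        · have hgeomN : Summable (fun m : ℕ => (1/2:ℝ)^(m+N) * Real.exp (8 * ‖z‖^2)) := 
            (summable_nat_add_iff (f := fun m : ℕ => (1/2:ℝ)^m * Real.exp (8 * ‖z‖^2)) N).2 hgeom
          calc ∑' m, ‖d (m + N)‖ ≤ ∑' m : ℕ, (1/2:ℝ)^(m+N) * Real.exp (8 * ‖z‖^2) := by
                apply Summable.tsum_le_tsum _ ((summable_nat_add_iff (f := fun m => ‖d m‖) N).2 hdsum) hgeomN
                intro m
                exact hdb _ (by omega)
            _ = 2 * (1/2)^N * Real.exp (8 * ‖z‖^2) := by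
                simp_rw [pow_add, mul_assoc]
                rw [tsum_mul_right, tsum_geometric_of_lt_one (by norm_num) (by norm_num)]
                norm_num
            _ ≤ _ := h4
  have he : ‖Complex.exp (z^2/2)‖ = Real.exp ((z^2).re/2) := by
    rw [Complex.norm_exp]
    congr 1
    simp
  intro h
  rw [hg] at h
  have h5 : ‖∑' n, d n‖ = Real.exp ((z^2).re/2) := by
    rw [eq_neg_of_add_eq_zero_left h, norm_neg, he]
  have h6 := Real.exp_pos ((z^2).re/2)
  linarith


/-- The law of a standard complex Gaussian variable: density `exp(-|w|^2)/π` on `ℂ`. -/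
noncomputable def stdComplexGaussian : Measure ℂ :=
  (volume : Measure ℂ).withDensity fun w => ENNReal.ofReal (Real.exp (-‖w‖ ^ 2) / Real.pi)

/-- `ξ` is a sequence of independent standard complex Gaussian variables. -/
structure IsGEFCoeff {Ω : Type*} [MeasurableSpace Ω] (P : Measure Ω) (ξ : ℕ → Ω → ℂ) : Prop where
  measurable : ∀ n, Measurable (ξ n)
  indep : iIndepFun ξ P
  law : ∀ n, P.map (ξ n) = stdComplexGaussian

/-- The probability that `f(z) = ∑ ξ_n z^n/√(n!)` has no zero in `r K`. -/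
noncomputable def holeProb {Ω : Type*} [MeasurableSpace Ω] (P : Measure Ω) (ξ : ℕ → Ω → ℂ)
    (K : Set ℂ) (r : ℝ) : ℝ :=
  P.real {ω | ∀ w ∈ K, gef (fun n => ξ n ω) ((r : ℂ) * w) ≠ 0}

lemma gauss_ball {a : ℂ} (ha : ‖a‖ ≤ 1) {η : ℝ} (h0 : 0 ≤ η) (h1 : η ≤ 1) :
    ENNReal.ofReal (η^2 * Real.exp (-4)) ≤ stdComplexGaussian (Metric.closedBall a η) := by
  unfold stdComplexGaussian
  rw [withDensity_apply _ Metric.isClosed_closedBall.measurableSet]
  calc ENNReal.ofReal (η^2 * Real.exp (-4)) 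
      = ∫⁻ _ in Metric.closedBall a η, ENNReal.ofReal (Real.exp (-4) / Real.pi) := by
        rw [setLIntegral_const, Complex.volume_closedBall]
        have hpi : (NNReal.pi : ENNReal) = ENNReal.ofReal Real.pi := by
          rw [← NNReal.coe_real_pi, ENNReal.ofReal_coe_nnreal]
        rw [hpi, ← ENNReal.ofReal_pow h0, ← ENNReal.ofReal_mul (by positivity), ← ENNReal.ofReal_mul (by positivity)]
        congr 1
        field_simp
    _ ≤ _ := by
        apply setLIntegral_mono' Metric.isClosed_closedBall.measurableSet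
        intro w hw
        apply ENNReal.ofReal_le_ofReal
        have h2 : ‖w‖ ≤ 2 := by
          have : ‖w - a‖ ≤ η := by simpa [dist_eq_norm] using hw
          calc ‖w‖ = ‖(w - a) + a‖ := by ring_nf
            _ ≤ ‖w - a‖ + ‖a‖ := norm_add_le _ _
            _ ≤ 2 := by linarith
        have h3 : ‖w‖^2 ≤ 4 := by nlinarith [norm_nonneg w]
        gcongr

lemma gauss_tail (t : ℝ) (ht : 0 ≤ t) :
    stdComplexGaussian {w | t < ‖w‖} ≤ ENNReal.ofReal (2 * Real.exp (-(t^2/2))) := by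
  unfold stdComplexGaussian
  have hm : MeasurableSet {w : ℂ | t < ‖w‖} := measurableSet_lt measurable_const measurable_norm
  rw [withDensity_apply _ hm]
  have hint : ∫ w : ℂ, Real.exp (-(1/2) * ‖w‖^2) = 2 * Real.pi := by
    rw [GaussianFourier.integral_rexp_neg_mul_sq_norm (by norm_num)]
    rw [Complex.finrank_real_complex]
    norm_num
    ring
  have hintg : Integrable (fun w : ℂ => Real.exp (-(1/2) * ‖w‖^2)) := by
    by_contra h
    rw [integral_undef h] at hint
    have := Real.pi_pos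
    linarith
  calc ∫⁻ w in {w : ℂ | t < ‖w‖}, ENNReal.ofReal (Real.exp (-‖w‖ ^ 2) / Real.pi)
      ≤ ∫⁻ w in {w : ℂ | t < ‖w‖}, ENNReal.ofReal (Real.exp (-(t^2/2)) / Real.pi * Real.exp (-(1/2) * ‖w‖^2)) := by
        apply setLIntegral_mono' hm
        intro w hw
        apply ENNReal.ofReal_le_ofReal
        have hw' : t < ‖w‖ := hw
        have h3 : t^2 ≤ ‖w‖^2 := by nlinarith [norm_nonneg w]
        rw [div_mul_eq_mul_div, ← Real.exp_add]
        gcongr
        linarith
    _ ≤ ∫⁻ w : ℂ, ENNReal.ofReal (Real.exp (-(t^2/2)) / Real.pi * Real.exp (-(1/2) * ‖w‖^2)) :=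
        setLIntegral_le_lintegral _ _
    _ = ENNReal.ofReal (2 * Real.exp (-(t^2/2))) := by
        rw [← ofReal_integral_eq_lintegral_ofReal (hintg.const_mul _) (by
          filter_upwards with w
          positivity)]
        rw [integral_const_mul, hint]
        congr 1
        field_simp

section prob
variable {Ω : Type*} [MeasurableSpace Ω] {P : Measure Ω} [IsProbabilityMeasure P] {ξ : ℕ → Ω → ℂ}

lemma tail_event (h : IsGEFCoeff P ξ) {N : ℕ} (hN : 3 ≤ N) :
    1/2 ≤ P.real (⋂ m ∈ Set.Ici N, ξ m ⁻¹' (Metric.closedBall 0 m)) := by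
  have hmeas : ∀ m, MeasurableSet (ξ m ⁻¹' (Metric.closedBall 0 (m:ℝ))) := fun m =>
    (h.measurable m) Metric.isClosed_closedBall.measurableSet
  have hmeasI : MeasurableSet (⋂ m ∈ Set.Ici N, ξ m ⁻¹' (Metric.closedBall 0 (m:ℝ))) :=
    MeasurableSet.biInter (Set.to_countable _) fun m _ => hmeas m
  have hb : P (⋂ m ∈ Set.Ici N, ξ m ⁻¹' (Metric.closedBall 0 (m:ℝ)))ᶜ ≤ ENNReal.ofReal (1/2) := by
    have hsub : (⋂ m ∈ Set.Ici N, ξ m ⁻¹' (Metric.closedBall 0 (m:ℝ)))ᶜ ⊆
        ⋃ k : ℕ, ξ (k + N) ⁻¹' {w | ((k+N : ℕ):ℝ) < ‖w‖} := by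
      intro ω hω
      simp only [Set.mem_compl_iff, Set.mem_iInter, not_forall, Set.mem_preimage,
        mem_closedBall_zero_iff, not_le, Set.mem_Ici] at hω
      obtain ⟨m, hm, hm2⟩ := hω
      simp only [Set.mem_iUnion, Set.mem_preimage, Set.mem_ofPred_eq]
      exact ⟨m - N, by rw [Nat.sub_add_cancel hm]; exact hm2⟩
    have hgeom : Summable (fun k : ℕ => 2 * (1/2:ℝ)^(k+N)) := by
      apply Summable.mul_left
      exact (summable_nat_add_iff (f := fun m : ℕ => (1/2:ℝ)^m) N).2 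
        (summable_geometric_of_lt_one (by norm_num) (by norm_num))
    calc P (⋂ m ∈ Set.Ici N, ξ m ⁻¹' (Metric.closedBall 0 (m:ℝ)))ᶜ 
        ≤ P (⋃ k : ℕ, ξ (k + N) ⁻¹' {w | ((k+N : ℕ):ℝ) < ‖w‖}) := measure_mono hsub
      _ ≤ ∑' k : ℕ, P (ξ (k + N) ⁻¹' {w | ((k+N : ℕ):ℝ) < ‖w‖}) := measure_iUnion_le _
      _ ≤ ∑' k : ℕ, ENNReal.ofReal (2 * (1/2:ℝ)^(k+N)) := by
          apply ENNReal.tsum_le_tsum
          intro k
          have hm : MeasurableSet {w : ℂ | ((k+N : ℕ):ℝ) < ‖w‖} := measurableSet_lt measurable_const measurable_norm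
          rw [← Measure.map_apply (h.measurable _) hm, h.law]
          refine (gauss_tail _ (by positivity)).trans (ENNReal.ofReal_le_ofReal ?_)
          have h1 : Real.exp (-((((k+N:ℕ):ℝ))^2/2)) ≤ (1/2)^(k+N) := by
            have h2 : (2:ℝ) ≤ ((k+N:ℕ):ℝ) := by
              have : 2 ≤ k + N := by omega
              exact_mod_cast this
            calc Real.exp (-((((k+N:ℕ):ℝ))^2/2)) ≤ Real.exp (-((k+N:ℕ):ℝ)) := by
                  apply Real.exp_le_exp.2
                  nlinarith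
              _ = (Real.exp (-1))^(k+N) := by
                  rw [← Real.exp_nat_mul]; ring_nf
              _ ≤ (1/2)^(k+N) := by
                  gcongr
                  rw [Real.exp_neg, one_div]
                  apply inv_anti₀ (by norm_num)
                  have := Real.add_one_le_exp (1:ℝ)
                  linarith
          linarith
      _ = ENNReal.ofReal (∑' k : ℕ, 2 * (1/2:ℝ)^(k+N)) := by
          rw [ENNReal.ofReal_tsum_of_nonneg (fun k => by positivity) hgeom]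
      _ ≤ ENNReal.ofReal (1/2) := by
          apply ENNReal.ofReal_le_ofReal
          rw [tsum_mul_left]
          simp_rw [pow_add]
          rw [tsum_mul_right, tsum_geometric_of_lt_one (by norm_num) (by norm_num)]
          have h3 : (1/2:ℝ)^N ≤ (1/2)^3 := pow_le_pow_of_le_one (by norm_num) (by norm_num) hN
          norm_num at h3 ⊢
          linarith
  have h2 : P.real (⋂ m ∈ Set.Ici N, ξ m ⁻¹' (Metric.closedBall 0 (m:ℝ)))ᶜ ≤ 1/2 := by
    rw [Measure.real]
    exact ENNReal.toReal_le_of_le_ofReal (by norm_num) hb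
  rw [probReal_compl_eq_one_sub hmeasI] at h2
  linarith

lemma head_event (h : IsGEFCoeff P ξ) (N : ℕ) {η : ℝ} (h0 : 0 ≤ η) (h1 : η ≤ 1) :
    (η^2 * Real.exp (-4))^N ≤ P.real (⋂ m ∈ Finset.range N, ξ m ⁻¹' (Metric.closedBall (acoef m) η)) := by
  have h2 := (iIndepFun_iff_measure_inter_preimage_eq_mul.1 h.indep) (Finset.range N)
    (sets := fun m => Metric.closedBall (acoef m) η)
    (fun m _ => Metric.isClosed_closedBall.measurableSet)
  rw [Measure.real, h2, ENNReal.toReal_prod]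
  calc (η^2 * Real.exp (-4))^N = ∏ _m ∈ Finset.range N, (η^2 * Real.exp (-4)) := by simp
    _ ≤ _ := by
      apply Finset.prod_le_prod
      · intro m _; positivity
      · intro m _
        have h3 := gauss_ball (norm_acoef_le m) h0 h1
        rw [← h.law m, Measure.map_apply (h.measurable m) Metric.isClosed_closedBall.measurableSet] at h3
        exact (ENNReal.ofReal_le_iff_le_toReal (measure_ne_top _ _)).1 h3

lemma both_events (h : IsGEFCoeff P ξ) {N : ℕ} (hN : 3 ≤ N) {η : ℝ} (h0 : 0 ≤ η) (h1 : η ≤ 1) :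
    (η^2 * Real.exp (-4))^N / 2 ≤ P.real ((⋂ m ∈ Finset.range N, ξ m ⁻¹' (Metric.closedBall (acoef m) η)) ∩
      (⋂ m ∈ Set.Ici N, ξ m ⁻¹' (Metric.closedBall 0 m))) := by
  have hind : iIndep (fun m => MeasurableSpace.comap (ξ m) inferInstance) P := h.indep
  have h2 := indep_iSup_of_disjoint (fun m => (h.measurable m).comap_le) hind
    (S := (Finset.range N : Set ℕ)) (T := Set.Ici N) (by
      rw [Set.disjoint_left]
      intro m hm hm2
      simp only [Finset.coe_range, Set.mem_Iio] at hm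
      simp only [Set.mem_Ici] at hm2
      omega)
  have h3 := (Indep_iff _ _ _).1 h2 (⋂ m ∈ Finset.range N, ξ m ⁻¹' (Metric.closedBall (acoef m) η))
    (⋂ m ∈ Set.Ici N, ξ m ⁻¹' (Metric.closedBall 0 (m:ℝ))) ?_ ?_
  · rw [Measure.real, h3, ENNReal.toReal_mul]
    have h4 := head_event h N h0 h1
    have h5 := tail_event h hN
    rw [Measure.real] at h4 h5
    calc (η^2 * Real.exp (-4))^N / 2 = (η^2 * Real.exp (-4))^N * (1/2) := by ring
      _ ≤ _ := by gcongr
  · refine Finset.measurableSet_biInter _ fun m hm => ?_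
    have hle : MeasurableSpace.comap (ξ m) inferInstance ≤ ⨆ i ∈ (Finset.range N : Set ℕ), MeasurableSpace.comap (ξ i) inferInstance :=
      le_iSup₂ (f := fun i (_ : i ∈ (Finset.range N : Set ℕ)) => MeasurableSpace.comap (ξ i) inferInstance) m (by exact_mod_cast hm)
    exact hle _ ⟨_, Metric.isClosed_closedBall.measurableSet, rfl⟩
  · refine MeasurableSet.biInter (Set.to_countable _) fun m hm => ?_
    have hle : MeasurableSpace.comap (ξ m) inferInstance ≤ ⨆ i ∈ Set.Ici N, MeasurableSpace.comap (ξ i) inferInstance :=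
      le_iSup₂ (f := fun i (_ : i ∈ Set.Ici N) => MeasurableSpace.comap (ξ i) inferInstance) m hm
    exact hle _ ⟨_, Metric.isClosed_closedBall.measurableSet, rfl⟩

end prob

/-- The closed rectangle `[-1,1] × [-δ,δ]`. -/
def rect (δ : ℝ) : Set ℂ := {w : ℂ | |w.re| ≤ 1 ∧ |w.im| ≤ δ}

lemma rect_eq (δ : ℝ) : rect δ = Set.Icc (-1) 1 ×ℂ Set.Icc (-δ) δ := by
  ext w
  simp [rect, Complex.mem_reProdIm, abs_le]

lemma rect_compact (δ : ℝ) : IsCompact (rect δ) := by
  rw [rect_eq]; exact isCompact_Icc.reProdIm isCompact_Icc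

lemma rect_convex (δ : ℝ) : Convex ℝ (rect δ) := by
  intro x hx y hy a b ha hb hab
  obtain ⟨hx1, hx2⟩ := hx
  obtain ⟨hy1, hy2⟩ := hy
  have key : ∀ s t M : ℝ, |s| ≤ M → |t| ≤ M → |a * s + b * t| ≤ M := by
    intro s t M hs ht
    calc |a * s + b * t| ≤ |a * s| + |b * t| := abs_add_le _ _
      _ = a * |s| + b * |t| := by rw [abs_mul, abs_mul, abs_of_nonneg ha, abs_of_nonneg hb]
      _ ≤ a * M + b * M := by gcongr
      _ = M := by rw [← add_mul, hab, one_mul]
  refine ⟨?_, ?_⟩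
  · simpa using key _ _ _ hx1 hy1
  · simpa using key _ _ _ hx2 hy2

lemma rect_seg {δ : ℝ} (hδ : 0 ≤ δ) : ∀ x ∈ Set.Icc (-1:ℝ) 1, (x:ℂ) ∈ rect δ := by
  intro x hx
  refine ⟨?_, ?_⟩
  · simpa [abs_le] using hx
  · simpa using hδ

lemma rect_nonempty {δ : ℝ} (hδ : 0 ≤ δ) : (rect δ).Nonempty :=
  ⟨0, by simpa [rect] using hδ⟩

lemma rect_connected {δ : ℝ} (hδ : 0 ≤ δ) : IsConnected (rect δ) :=
  ⟨rect_nonempty hδ, (rect_convex δ).isPreconnected⟩

lemma rect_interior {δ : ℝ} (hδ : 0 < δ) : (interior (rect δ)).Nonempty := by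
  rw [rect_eq, Complex.interior_reProdIm, interior_Icc, interior_Icc]
  refine ⟨0, ?_⟩
  simp [Complex.mem_reProdIm, hδ]

section prob2
variable {Ω : Type*} [MeasurableSpace Ω] {P : Measure Ω} [IsProbabilityMeasure P] {ξ : ℕ → Ω → ℂ}

lemma hole_lower (h : IsGEFCoeff P ξ) {δ : ℝ} (hδ0 : 0 < δ) (hδ1 : δ ≤ 1) {r : ℝ} (hr : 1 ≤ r) :
    Real.exp (-(62 * δ^2 * r^4 + 2915 * r^3)) ≤ holeProb P ξ (rect δ) r := by
  set N : ℕ := ⌈30 * r^2⌉₊ with hN
  have hr2 : 1 ≤ r^2 := by nlinarith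
  have hN1 : 30 * r^2 ≤ N := Nat.le_ceil _
  have hN2 : (N:ℝ) ≤ 31 * r^2 := by
    have := Nat.ceil_lt_add_one (show 0 ≤ 30 * r^2 by positivity)
    rw [← hN] at this
    linarith
  have hN30 : (30:ℝ) ≤ N := by linarith
  have hN3 : 3 ≤ N := by
    have : (3:ℝ) ≤ N := by linarith
    exact_mod_cast this
  have hN0 : (0:ℝ) < N := by linarith
  set η : ℝ := Real.exp (-(δ^2 * r^2)) / (8 * Real.sqrt N) with hη
  have hsq : 0 < Real.sqrt N := Real.sqrt_pos.2 hN0
  have hsq1 : 1 ≤ Real.sqrt N := Real.one_le_sqrt.2 (by linarith)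
  have hη0 : 0 ≤ η := by positivity
  have hη1 : η ≤ 1 := by
    rw [hη, div_le_one (by positivity)]
    have : Real.exp (-(δ^2 * r^2)) ≤ 1 := Real.exp_le_one_iff.2 (by
      have : 0 ≤ δ^2*r^2 := by positivity
      linarith)
    linarith
  have hev := both_events h hN3 hη0 hη1
  -- inclusion
  have hincl : (⋂ m ∈ Finset.range N, ξ m ⁻¹' (Metric.closedBall (acoef m) η)) ∩
      (⋂ m ∈ Set.Ici N, ξ m ⁻¹' (Metric.closedBall 0 (m:ℝ))) ⊆ 
      {ω | ∀ w ∈ rect δ, gef (fun n => ξ n ω) ((r : ℂ) * w) ≠ 0} := by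
    intro ω hω w hw
    obtain ⟨hω1, hω2⟩ := hω
    simp only [Set.mem_iInter, Set.mem_preimage, Finset.mem_range, Metric.mem_closedBall,
      dist_eq_norm] at hω1
    simp only [Set.mem_iInter, Set.mem_preimage, Set.mem_Ici, mem_closedBall_zero_iff] at hω2
    obtain ⟨hw1, hw2⟩ := hw
    have hu : w.re^2 ≤ 1 := by
      rw [← sq_abs]; nlinarith [abs_nonneg w.re]
    have hv : w.im^2 ≤ δ^2 := by
      rw [← sq_abs]; nlinarith [abs_nonneg w.im]
    have hv1 : w.im^2 ≤ 1 := by nlinarith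
    have hnorm : ‖(r:ℂ) * w‖^2 = r^2 * (w.re^2 + w.im^2) := by
      rw [norm_mul, mul_pow, Complex.norm_real, Real.norm_eq_abs, sq_abs, ← Complex.normSq_eq_norm_sq,
        Complex.normSq_apply]
      ring
    have hre : (((r:ℂ) * w)^2).re = r^2 * (w.re^2 - w.im^2) := by
      rw [sq]
      simp only [Complex.mul_re, Complex.mul_im, Complex.ofReal_re, Complex.ofReal_im]
      ring
    apply gef_ne_zero hη0 hω1 hω2
    · rw [hnorm, hre]
      calc η * (Real.sqrt N * Real.exp (r^2 * (w.re^2 + w.im^2) / 2)) 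
          = Real.exp (-(δ^2 * r^2)) * Real.exp (r^2 * (w.re^2 + w.im^2) / 2) / 8 := by
            rw [hη]; field_simp
        _ = Real.exp (-(δ^2 * r^2) + r^2 * (w.re^2 + w.im^2) / 2) / 8 := by rw [Real.exp_add]
        _ ≤ Real.exp (r^2 * (w.re^2 - w.im^2) / 2) / 8 := by
            gcongr
            nlinarith [mul_le_mul_of_nonneg_left hv (sq_nonneg r)]
        _ ≤ _ := by
            have := Real.exp_pos (r^2 * (w.re^2 - w.im^2) / 2)
            linarith
    · rw [hnorm, hre]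
      have hlog2 : Real.exp (0.69) ≤ 2 := by
        have := Real.log_two_gt_d9
        rw [← Real.le_log_iff_exp_le (by norm_num)]
        linarith
      have h1 : (1/2:ℝ)^N ≤ Real.exp (-(20.7 * r^2)) := by
        have h2 : (1/2:ℝ) ≤ Real.exp (-0.69) := by
          rw [Real.exp_neg, one_div]
          exact inv_anti₀ (Real.exp_pos _) hlog2
        have h2' : (1/2:ℝ) ≤ 1 := by norm_num
        have h3 : (1/2:ℝ)^N = ((1/2:ℝ)^(N:ℝ)) := (Real.rpow_natCast _ _).symm
        rw [h3]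
        calc (1/2:ℝ)^(N:ℝ) ≤ (1/2:ℝ)^(30 * r^2 : ℝ) := 
              Real.rpow_le_rpow_of_exponent_ge (by norm_num) h2' hN1
          _ = Real.exp (Real.log (1/2) * (30 * r^2)) := by
              rw [Real.rpow_def_of_pos (by norm_num)]
          _ ≤ _ := by
              apply Real.exp_le_exp.2
              have h4 : Real.log (1/2) ≤ -0.69 := by
                rw [one_div, Real.log_inv]
                have := Real.log_two_gt_d9
                linarith
              nlinarith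
      have h8 : (8:ℝ) ≤ Real.exp (4.2 * r^2) := by
        have h5 : (8:ℝ) ≤ Real.exp 2.1 := by
          rw [← Real.log_le_iff_le_exp (by norm_num)]
          have : Real.log 8 = 3 * Real.log 2 := by
            rw [show (8:ℝ) = 2^3 by norm_num, Real.log_pow]; norm_num
          rw [this]
          have := Real.log_two_lt_d9
          linarith
        refine h5.trans (Real.exp_le_exp.2 ?_)
        linarith
      have h6 : Real.exp (8 * (r^2 * (w.re^2 + w.im^2))) ≤ Real.exp (16 * r^2) := by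
        apply Real.exp_le_exp.2
        nlinarith
      have h7 : Real.exp (-(r^2/2)) ≤ Real.exp (r^2 * (w.re^2 - w.im^2) / 2) := by
        apply Real.exp_le_exp.2
        nlinarith [sq_nonneg w.re, mul_nonneg (sq_nonneg r) (sq_nonneg w.re)]
      have h9 : 8 * (Real.exp (-(20.7 * r^2)) * Real.exp (16 * r^2)) ≤ Real.exp (-(r^2/2)) := by
        calc 8 * (Real.exp (-(20.7 * r^2)) * Real.exp (16 * r^2)) 
            ≤ Real.exp (4.2 * r^2) * (Real.exp (-(20.7 * r^2)) * Real.exp (16 * r^2)) := by gcongr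
          _ = Real.exp (-(r^2/2)) := by
            rw [← Real.exp_add, ← Real.exp_add]; ring_nf
      calc 2 * (1/2:ℝ)^N * Real.exp (8 * (r^2 * (w.re^2 + w.im^2))) 
          ≤ 2 * Real.exp (-(20.7 * r^2)) * Real.exp (16 * r^2) := by gcongr
        _ = 8 * (Real.exp (-(20.7 * r^2)) * Real.exp (16 * r^2)) / 4 := by ring
        _ ≤ Real.exp (-(r^2/2)) / 4 := by gcongr
        _ ≤ _ := by gcongr
  have hmono := measureReal_mono (μ := P) hincl
  refine le_trans ?_ (hev.trans hmono)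
  -- numeric
  have h64 : 64 * (N:ℝ) ≤ Real.exp (90 * r) := by
    have := Real.quadratic_le_exp_of_nonneg (show 0 ≤ 90 * r by linarith)
    nlinarith
  have hη2 : Real.exp (-(2 * δ^2 * r^2 + 4 + 90 * r)) ≤ η^2 * Real.exp (-4) := by
    have h1 : η^2 = Real.exp (-(2 * δ^2 * r^2)) / (64 * N) := by
      rw [hη, div_pow, mul_pow, Real.sq_sqrt hN0.le, sq (Real.exp _), ← Real.exp_add]
      norm_num
      ring_nf
    rw [h1]
    have h2 : Real.exp (-(90 * r)) ≤ 1 / (64 * (N:ℝ)) := by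
      rw [Real.exp_neg, one_div]
      exact inv_anti₀ (by positivity) h64
    calc Real.exp (-(2 * δ^2 * r^2 + 4 + 90 * r)) 
        = Real.exp (-(2 * δ^2 * r^2)) * Real.exp (-(90 * r)) * Real.exp (-4) := by
          rw [← Real.exp_add, ← Real.exp_add]; ring_nf
      _ ≤ Real.exp (-(2 * δ^2 * r^2)) * (1 / (64 * (N:ℝ))) * Real.exp (-4) := by gcongr
      _ = _ := by ring
  have hhalf : Real.exp (-1) ≤ 1/2 := by
    rw [Real.exp_neg, one_div]
    apply inv_anti₀ (by norm_num)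
    have := Real.add_one_le_exp (1:ℝ)
    linarith
  calc Real.exp (-(62 * δ^2 * r^4 + 2915 * r^3)) 
      ≤ Real.exp (-(31 * r^2 * (2 * δ^2 * r^2 + 4 + 90 * r))) * Real.exp (-1) := by
        rw [← Real.exp_add]
        apply Real.exp_le_exp.2
        have : r^2 ≤ r^3 := by nlinarith
        have : 1 ≤ r^3 := by nlinarith
        nlinarith
    _ ≤ Real.exp (-(N * (2 * δ^2 * r^2 + 4 + 90 * r))) * Real.exp (-1) := by
        gcongr
    _ = (Real.exp (-(2 * δ^2 * r^2 + 4 + 90 * r)))^N * Real.exp (-1) := by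
        rw [← Real.exp_nat_mul]; ring_nf
    _ ≤ (η^2 * Real.exp (-4))^N * (1/2) := by gcongr
    _ = _ := by ring

lemma not_tendsto (h : IsGEFCoeff P ξ) {δ : ℝ} (hδ0 : 0 < δ) (hδ1 : δ ≤ 1/25) {c : ℝ} 
    (hc : HasCapacity (rect δ) c) :
    ¬ Tendsto (fun r : ℝ => -Real.log (holeProb P ξ (rect δ) r) / r^4) atTop 
      (𝓝 (Real.exp 2 / 4 * c^4)) := by
  intro ht
  have hc2 := half_le_capacity (rect_compact δ) (rect_seg hδ0.le) hc
  have hb : ∀ᶠ r : ℝ in atTop, -Real.log (holeProb P ξ (rect δ) r) / r^4 ≤ 62 * δ^2 + 2915 / r := by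
    filter_upwards [eventually_ge_atTop 1] with r hr
    have h1 := hole_lower h hδ0 (by linarith) hr
    have h2 : -(62 * δ^2 * r^4 + 2915 * r^3) ≤ Real.log (holeProb P ξ (rect δ) r) := by
      rw [Real.le_log_iff_exp_le (lt_of_lt_of_le (Real.exp_pos _) h1)]
      exact h1
    rw [div_le_iff₀ (by positivity)]
    have h3 : (62 * δ^2 + 2915 / r) * r^4 = 62 * δ^2 * r^4 + 2915 * r^3 := by
      field_simp
    rw [h3]; linarith
  have hlim : Tendsto (fun r : ℝ => 62 * δ^2 + 2915 / r) atTop (𝓝 (62 * δ^2 + 0)) :=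
    tendsto_const_nhds.add (tendsto_const_nhds.div_atTop tendsto_id)
  have h4 := le_of_tendsto_of_tendsto ht hlim hb
  have h5 : (1/16:ℝ) ≤ c^4 := by
    have : (1/2:ℝ)^4 ≤ c^4 := by gcongr
    norm_num at this; linarith
  have h6 : (7.29:ℝ) ≤ Real.exp 2 := by
    have h7 : Real.exp 2 = Real.exp 1 ^ 2 := by rw [← Real.exp_nat_mul]; norm_num
    have h8 := Real.exp_one_gt_d9
    rw [h7]; nlinarith
  have h9 : δ^2 ≤ 1/625 := by nlinarith
  have h10 : (7.29:ℝ)/4 * (1/16) ≤ Real.exp 2 / 4 * c^4 := by gcongr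
  linarith

end prob2

instance : IsProbabilityMeasure stdComplexGaussian := by
  refine ⟨?_⟩
  unfold stdComplexGaussian
  rw [withDensity_apply _ MeasurableSet.univ, Measure.restrict_univ]
  have hint : ∫ w : ℂ, Real.exp (-1 * ‖w‖^2) = Real.pi := by
    rw [GaussianFourier.integral_rexp_neg_mul_sq_norm (by norm_num)]
    rw [Complex.finrank_real_complex]
    norm_num
  have hintg : Integrable (fun w : ℂ => Real.exp (-1 * ‖w‖^2)) := by
    by_contra h
    rw [integral_undef h] at hint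
    have := Real.pi_pos
    linarith
  have : (fun w : ℂ => ENNReal.ofReal (Real.exp (-‖w‖ ^ 2) / Real.pi)) = 
      fun w : ℂ => ENNReal.ofReal (1 / Real.pi * Real.exp (-1 * ‖w‖^2)) := by
    ext w; congr 1; ring_nf
  rw [this, ← ofReal_integral_eq_lintegral_ofReal (hintg.const_mul _) (by
          filter_upwards with w
          positivity), integral_const_mul, hint]
  have := Real.pi_ne_zero
  rw [one_div_mul_cancel this, ENNReal.ofReal_one]

lemma exists_GEF : IsGEFCoeff (Measure.infinitePi fun _ : ℕ => stdComplexGaussian)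
    (fun n (x : ℕ → ℂ) => x n) where
  measurable n := measurable_pi_apply n
  indep := iIndepFun_infinitePi (X := fun _ x => x) (fun _ => measurable_id)
  law n := (measurePreserving_eval_infinitePi _ n).map_eq

/-- For every `δ ∈ (0,1]` the rectangle `[-1,1] × [-δ,δ]` has capacity `c ≥ 1/2`, and the
hole probability of the Gaussian entire function in `r` times this rectangle is at least
`exp (-(62 δ^2 r^4 + 2915 r^3))`; if `δ ≤ 1/25`, then `r^{-4} p_{H,K}(f;r)` does not converge to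
`(e^2/4) c^4`. -/
theorem result (δ : ℝ) (hδ0 : 0 < δ) (hδ1 : δ ≤ 1) :
    IsCompact (rect δ) ∧ Convex ℝ (rect δ) ∧ IsConnected (rect δ) ∧ (interior (rect δ)).Nonempty ∧
      ∃ c : ℝ, HasCapacity (rect δ) c ∧ 1 / 2 ≤ c ∧
        ∀ {Ω : Type*} [MeasurableSpace Ω] (P : Measure Ω) [IsProbabilityMeasure P]
          (ξ : ℕ → Ω → ℂ), IsGEFCoeff P ξ →
          (∀ r : ℝ, 1 ≤ r →
            Real.exp (-(62 * δ ^ 2 * r ^ 4 + 2915 * r ^ 3)) ≤ holeProb P ξ (rect δ) r) ∧
          (δ ≤ 1 / 25 →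
            ¬ Tendsto (fun r : ℝ => -Real.log (holeProb P ξ (rect δ) r) / r ^ 4) atTop
              (𝓝 (Real.exp 2 / 4 * c ^ 4))) := by
  refine ⟨rect_compact δ, rect_convex δ, rect_connected hδ0.le, rect_interior hδ0, ?_⟩
  obtain ⟨c, hc⟩ := exists_capacity (rect_compact δ) (rect_nonempty hδ0.le)
  refine ⟨c, hc, half_le_capacity (rect_compact δ) (rect_seg hδ0.le) hc, ?_⟩
  intro Ω _ P _ ξ h
  exact ⟨fun r hr => hole_lower h hδ0 hδ1 hr, fun h1 => not_tendsto h hδ0 h1 hc⟩

end Pool.Agent.Results.MP_629fb1_pr.ThinRectangle
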